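import Mathlib
import Pool.Agent.H37EF.Fin

/-! Linear polynomials along the lines `x + y = n`, for every `n`. -/

set_option autoImplicit false

namespace Pool.Agent.H37EN

open Finset Filter Topology
open Pool.Agent.H37EF

open Classical in
lemma sum_inj {ι : Type} (𝓕 : Finset ι) (φ : ι → ℤ × ℤ) (hφ : ∀ f ∈ 𝓕, ∀ g ∈ 𝓕, φ f = φ g → f = g) (r : ℕ)
    (g : Finset ι → ℝ) (g' : Finset (ℤ × ℤ) → ℝ)
    (P : Finset ι → Prop) (P' : Finset (ℤ × ℤ) → Prop) (hg : ∀ F ⊆ 𝓕, g F = g' (F.image φ))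
    (hP : ∀ F ⊆ 𝓕, (P F ↔ P' (F.image φ))) :
    ∑ F ∈ (𝓕.powersetCard r).filter P, g F = ∑ T ∈ ((𝓕.image φ).powersetCard r).filter P', g' T := by
  have hcard : ∀ F ⊆ 𝓕, (F.image φ).card = F.card := fun F hF =>
    card_image_of_injOn fun f hf g hg h => hφ f (hF hf) g (hF hg) h
  apply sum_nbij (fun F => F.image φ)
  · intro F hFm
    rw [mem_filter, mem_powersetCard] at hFm ⊢
    refine ⟨⟨image_subset_image hFm.1.1, ?_⟩, (hP F hFm.1.1).1 hFm.2⟩
    rw [hcard F hFm.1.1, hFm.1.2]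
  · intro F hFm G hGm h
    rw [mem_coe, mem_filter, mem_powersetCard] at hFm hGm
    have key : ∀ A B : Finset ι, A ⊆ 𝓕 → B ⊆ 𝓕 → A.image φ = B.image φ → A ⊆ B := by
      intro A B hA hB hAB f hf
      have h1 : φ f ∈ B.image φ := hAB ▸ mem_image_of_mem _ hf
      obtain ⟨f', hf', he⟩ := Finset.mem_image.1 h1
      rw [← hφ f' (hB hf') f (hA hf) he]
      exact hf'
    exact Subset.antisymm (key F G hFm.1.1 hGm.1.1 h) (key G F hGm.1.1 hFm.1.1 h.symm)
  · intro T hT
    rw [mem_coe, mem_filter, mem_powersetCard] at hT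
    have himg : (𝓕.filter (fun f => φ f ∈ T)).image φ = T := by
      ext x
      constructor
      · intro hx
        obtain ⟨f, hf, rfl⟩ := Finset.mem_image.1 hx
        exact (mem_filter.1 hf).2
      · intro hx
        obtain ⟨f, hf, rfl⟩ := Finset.mem_image.1 (hT.1.1 hx)
        exact mem_image_of_mem _ (mem_filter.2 ⟨hf, hx⟩)
    refine ⟨𝓕.filter (fun f => φ f ∈ T), ?_, himg⟩
    rw [mem_coe, mem_filter, mem_powersetCard]
    refine ⟨⟨filter_subset _ _, ?_⟩, ?_⟩
    · rw [← hcard _ (filter_subset _ _), himg]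
      exact hT.1.2
    · rw [hP _ (filter_subset _ _), himg]
      exact hT.2
  · intro F hFm
    rw [mem_filter, mem_powersetCard] at hFm
    exact hg F hFm.1.1

/-- the value of the linear polynomial `a x + b y + c`, `f = (a, b, c)` -/
def val (f : ℤ × ℤ × ℤ) (x y : ℤ) : ℤ := f.1 * x + f.2.1 * y + f.2.2

/-- number of the residues `x` mod `p` with `p` dividing the product of the `f(x, n - x)` -/
noncomputable def omegaL (n : ℕ) (F : Finset (ℤ × ℤ × ℤ)) (p : ℕ) : ℕ :=
  ((range p).filter (fun x : ℕ => (p : ℤ) ∣ ∏ f ∈ F, val f x ((n : ℤ) - x))).card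

/-- the constant of the family on the line -/
noncomputable def CL (n : ℕ) (F : Finset (ℤ × ℤ × ℤ)) : ℝ :=
  ∏' p : Nat.Primes, (1 - (omegaL n F p : ℝ) / (p : ℕ)) / (1 - 1 / ((p : ℕ) : ℝ)) ^ F.card

/-- the conditions on a linear polynomial, for the line `x + y = n` -/
def AdmL (A n : ℕ) (f : ℤ × ℤ × ℤ) : Prop :=
  f.1 ≠ f.2.1 ∧ |f.1 - f.2.1| ≤ A ∧ |f.2.1 * n + f.2.2| ≤ n ∧ IsCoprime (f.1 - f.2.1) (f.2.1 * n + f.2.2) ∧
    ∀ x : ℝ, (n : ℝ) / 16 ≤ x → x ≤ n / 2 → (n : ℝ) / 24 ≤ f.1 * x + f.2.1 * (n - x) + f.2.2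

/-- the number of the `(x, y)`, `x, y ≥ 1`, `x + y = n`, at which exactly the members of `J` are prime -/
noncomputable def patL (n : ℕ) (F J : Finset (ℤ × ℤ × ℤ)) : ℕ :=
  {z : ℕ × ℕ | 1 ≤ z.1 ∧ 1 ≤ z.2 ∧ z.1 + z.2 = n ∧
    ∀ f ∈ F, (0 < val f z.1 z.2 ∧ Prime (val f z.1 z.2)) ↔ f ∈ J}.ncard

/-- the restriction to the line -/
def res (n : ℕ) (f : ℤ × ℤ × ℤ) : ℤ × ℤ := (f.1 - f.2.1, f.2.1 * n + f.2.2)

lemma val_res (n : ℕ) (f : ℤ × ℤ × ℤ) (x : ℤ) : val f x ((n : ℤ) - x) = (res n f).1 * x + (res n f).2 := by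
  unfold val res
  ring

/-- all patterns -/
def GoodL (C n : ℕ) (F : Finset (ℤ × ℤ × ℤ)) : Prop :=
  ∀ J ⊆ F, (n : ℝ) / Real.log n ^ C ≤ patL n F J

/-- irreducible on the line -/
def IrrL (n : ℕ) (f : ℤ × ℤ × ℤ) : Prop := f.1 ≠ f.2.1 ∧ IsCoprime (f.1 - f.2.1) (f.2.1 * n + f.2.2)

/-- no two members are equal or opposite on the line -/
def SepL (n : ℕ) (F : Finset (ℤ × ℤ × ℤ)) : Prop :=
  ∀ f ∈ F, ∀ g ∈ F, f ≠ g → (∃ x : ℤ, val f x (n - x) ≠ val g x (n - x)) ∧ ∃ x : ℤ, val f x (n - x) ≠ -val g x (n - x)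

lemma res_ext {n : ℕ} {f g : ℤ × ℤ × ℤ} (h : res n f = res n g) (x : ℤ) : val f x (n - x) = val g x (n - x) := by
  rw [val_res, val_res, h]

lemma res_neg {n : ℕ} {f g : ℤ × ℤ × ℤ} (h : res n f = -res n g) (x : ℤ) : val f x (n - x) = -val g x (n - x) := by
  rw [val_res, val_res, h]
  simp only [Prod.fst_neg, Prod.snd_neg]
  ring

open Classical in
lemma NDL (n : ℕ) (F : Finset (ℤ × ℤ × ℤ)) (hF : ∀ f ∈ F, IrrL n f) (hS : SepL n F) : ND (F.image (res n)) := by
  apply ND_of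
  · intro x hx
    obtain ⟨f, hf, rfl⟩ := Finset.mem_image.1 hx
    exact sub_ne_zero.2 (hF f hf).1
  · intro x hx y hy hne h1
    obtain ⟨f, hf, rfl⟩ := Finset.mem_image.1 hx
    obtain ⟨g, hg, rfl⟩ := Finset.mem_image.1 hy
    have hcf : IsCoprime (res n f).1 (res n f).2 := (hF f hf).2
    have hcg : IsCoprime (res n g).1 (res n g).2 := (hF g hg).2
    have d1 : (res n f).1 ∣ (res n g).1 := hcf.dvd_of_dvd_mul_left ⟨(res n g).2, by rw [h1]⟩
    have d2 : (res n g).1 ∣ (res n f).1 := hcg.dvd_of_dvd_mul_right ⟨(res n f).2, by rw [h1]; ring⟩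
    have f0 : (res n f).1 ≠ 0 := sub_ne_zero.2 (hF f hf).1
    have hfg : f ≠ g := fun h => hne (by rw [h])
    rcases Int.natAbs_eq_natAbs_iff.1 (Nat.dvd_antisymm (Int.natAbs_dvd_natAbs.2 d1)
      (Int.natAbs_dvd_natAbs.2 d2)) with h | h
    · apply hne
      rw [← h] at h1
      have h2 : (res n f).1 * (res n g).2 = (res n f).1 * (res n f).2 := by rw [h1]; ring
      exact Prod.ext h (mul_left_cancel₀ f0 h2).symm
    · have h3 : (res n g).1 = -(res n f).1 := by rw [h]; ring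
      rw [h3] at h1
      have h2 : (res n f).1 * (res n g).2 = (res n f).1 * (-(res n f).2) := by rw [h1]; ring
      have h4 := mul_left_cancel₀ f0 h2
      obtain ⟨x, hx⟩ := (hS f hf g hg hfg).2
      apply hx
      apply res_neg
      ext
      · rw [h]; rfl
      · rw [Prod.snd_neg, h4]; ring

open Classical in
lemma res_inj {n : ℕ} {F : Finset (ℤ × ℤ × ℤ)} (hS : SepL n F) :
    ∀ f ∈ F, ∀ g ∈ F, res n f = res n g → f = g := by
  intro f hf g hg h
  by_contra hne
  obtain ⟨x, hx⟩ := (hS f hf g hg hne).1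
  exact hx (res_ext h x)

open Classical in
lemma om_res (n : ℕ) (F : Finset (ℤ × ℤ × ℤ)) {p : ℕ} (hp : p.Prime) : om (F.image (res n)) p = omegaL n F p := by
  unfold om omegaL
  congr 1
  apply filter_congr
  intro x _
  rw [Prime.dvd_finsetProd_iff (Nat.prime_iff_prime_int.1 hp)]
  constructor
  · rintro ⟨g, hg, hd⟩
    obtain ⟨f, hf, rfl⟩ := Finset.mem_image.1 hg
    exact ⟨f, hf, by rw [val_res]; exact hd⟩
  · rintro ⟨f, hf, hd⟩
    exact ⟨res n f, mem_image_of_mem _ hf, by rw [← val_res]; exact hd⟩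

open Classical in
theorem CL_hasProd (n : ℕ) (F : Finset (ℤ × ℤ × ℤ)) (hF : ∀ f ∈ F, IrrL n f) (hS : SepL n F) :
    HasProd (fun p : Nat.Primes => (1 - (omegaL n F p : ℝ) / (p : ℕ)) / (1 - 1 / ((p : ℕ) : ℝ)) ^ F.card) (CL n F) ∧
    ((∀ p : ℕ, p.Prime → omegaL n F p < p) → 0 < CL n F) := by
  have hcard : (F.image (res n)).card = F.card := card_image_of_injOn (res_inj hS)
  have hcop : ∀ x ∈ F.image (res n), IsCoprime x.1 x.2 := by
    intro x hx
    obtain ⟨f, hf, rfl⟩ := Finset.mem_image.1 hx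
    exact (hF f hf).2
  have hfun : (fun p : Nat.Primes => lc (F.image (res n)) p) = fun p : Nat.Primes =>
      (1 - (omegaL n F p : ℝ) / (p : ℕ)) / (1 - 1 / ((p : ℕ) : ℝ)) ^ F.card := by
    funext p
    unfold lc
    rw [om_res n F p.2, hcard]
  have hCL : CL n F = BH (F.image (res n)) := by
    unfold CL BH
    rw [hfun]
  refine ⟨?_, fun h => ?_⟩
  · rw [hCL, ← hfun]
    exact BH_hasProd _ (NDL n F hF hS) hcop
  · rw [hCL]
    apply BH_pos _ (NDL n F hF hS) hcop
    intro p hp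
    rw [om_res n F hp]
    exact h p hp

lemma BH_nonneg (T : Finset (ℤ × ℤ)) : 0 ≤ BH T := by
  have h0 : ∀ p : Nat.Primes, 0 ≤ lc T p := by
    intro p
    unfold lc
    have hp0 : (0:ℝ) < (p : ℕ) := by exact_mod_cast p.2.pos
    have hp1 : (1:ℝ) ≤ (p : ℕ) := by exact_mod_cast p.2.one_lt.le
    have h1 : (om T p : ℝ) ≤ (p : ℕ) := by
      have : om T p ≤ (p : ℕ) := by
        unfold om
        exact (card_filter_le _ _).trans (by rw [card_range])
      exact_mod_cast this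
    apply div_nonneg
    · rw [sub_nonneg, div_le_one hp0]
      exact h1
    · apply pow_nonneg
      rw [sub_nonneg, div_le_one hp0]
      exact hp1
  unfold BH
  by_cases hm : Multipliable (fun p : Nat.Primes => lc T p)
  · exact ge_of_tendsto' hm.hasProd (fun s => prod_nonneg fun i _ => h0 i)
  · rw [tprod_eq_one_of_not_multipliable hm]
    exact zero_le_one

open Classical in
theorem main (hS : StmH) (k : ℕ) (hk : 1 ≤ k) (ε : ℝ) (hε : 0 < ε) :
    ∃ (K : ℝ) (C : ℕ), 0 < K ∧ ∀ A : ℕ, ∃ n₀ : ℕ, ∀ n : ℕ, n₀ ≤ n → ∀ 𝓕 : Finset (ℤ × ℤ × ℤ),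
    (∀ f ∈ 𝓕, AdmL A n f) → (∀ f ∈ 𝓕, ∀ g ∈ 𝓕, res n f = res n g → f = g) →
    K * Real.log (Real.log n) ≤ 𝓕.card →
    (1 - ε) * (𝓕.card.choose (k + 1)) ≤ ∑ F ∈ 𝓕.powersetCard (k + 1), CL n F ∧
    (share k - ε) * ∑ F ∈ 𝓕.powersetCard (k + 1), CL n F ≤
      ∑ F ∈ (𝓕.powersetCard (k + 1)).filter (GoodL C n), CL n F := by
  obtain ⟨K, C, hK, h⟩ := main_pairs hS k hk ε hε
  refine ⟨K, C + 1, hK, fun A => ?_⟩
  have hlog : ∀ᶠ n : ℕ in atTop, 2 ≤ Real.log n :=
    (Real.tendsto_log_atTop.comp tendsto_natCast_atTop_atTop).eventually_ge_atTop _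
  have hpow : ∀ᶠ n : ℕ in atTop, Real.log n ^ (C + 1) ≤ n := by
    have h1 := (Real.isLittleO_pow_log_id_atTop (n := C + 1)).comp_tendsto tendsto_natCast_atTop_atTop
    have h2 := h1.bound (c := 1) (by norm_num)
    filter_upwards [h2, hlog] with n hn hl
    simp only [Function.comp_apply, id_eq, one_mul, Real.norm_eq_abs] at hn
    rw [abs_of_nonneg (by positivity), abs_of_nonneg (by positivity)] at hn
    exact hn
  obtain ⟨n₀, hn₀⟩ := eventually_atTop.1 ((h A).and (hlog.and hpow))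
  refine ⟨n₀, fun n hn 𝓕 hF hinj hcard => ?_⟩
  obtain ⟨hN, hl, hp⟩ := hn₀ n hn
  have hcardF : ∀ F ⊆ 𝓕, (F.image (res n)).card = F.card := fun F hF' =>
    card_image_of_injOn fun f hf g hg h => hinj f (hF' hf) g (hF' hg) h
  have h3 := hN (𝓕.image (res n)) (by
    intro x hx
    obtain ⟨f, hf, rfl⟩ := Finset.mem_image.1 hx
    obtain ⟨g1, g2, g3, g4, g5⟩ := hF f hf
    refine ⟨sub_ne_zero.2 g1, g2, g3, g4, fun t ht1 ht2 => ?_⟩
    have := g5 t ht1 ht2
    unfold res
    push_cast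
    linarith) (by
    rw [hcardF 𝓕 Subset.rfl]
    exact hcard)
  rw [hcardF 𝓕 Subset.rfl] at h3
  have hom : ∀ F ⊆ 𝓕, ∀ p : ℕ, p.Prime → om (F.image (res n)) p = omegaL n F p := by
    intro F _ p hpp
    unfold om omegaL
    congr 1
    apply filter_congr
    intro x _
    rw [Prime.dvd_finsetProd_iff (Nat.prime_iff_prime_int.1 hpp)]
    constructor
    · rintro ⟨g, hg, hd⟩
      obtain ⟨f, hf, rfl⟩ := Finset.mem_image.1 hg
      exact ⟨f, hf, by rw [val_res]; exact hd⟩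
    · rintro ⟨f, hf, hd⟩
      exact ⟨res n f, mem_image_of_mem _ hf, by rw [← val_res]; exact hd⟩
  have hCL : ∀ F ⊆ 𝓕, CL n F = BH (F.image (res n)) := by
    intro F hF'
    unfold CL BH
    congr 1
    funext p
    unfold lc
    rw [hom F hF' p p.2, hcardF F hF']
  have hgood : ∀ F ⊆ 𝓕, GoodP C n (F.image (res n)) → GoodL (C + 1) n F := by
    intro F hF' hG J hJ
    have h4 := hG (J.image (res n)) (image_subset_image hJ)
    have key : ∀ f ∈ F, (f ∈ J ↔ res n f ∈ J.image (res n)) := by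
      intro f hf
      constructor
      · exact fun h => mem_image_of_mem _ h
      · intro h
        obtain ⟨g, hg, he⟩ := Finset.mem_image.1 h
        rw [← hinj g (hF' (hJ hg)) f (hF' hf) he]
        exact hg
    have h5 : pat (F.image (res n)) (J.image (res n)) n ≤ patL n F J + 1 := by
      unfold pat patL
      have hfin : ({z : ℕ × ℕ | 1 ≤ z.1 ∧ 1 ≤ z.2 ∧ z.1 + z.2 = n ∧
          ∀ f ∈ F, (0 < val f z.1 z.2 ∧ Prime (val f z.1 z.2)) ↔ f ∈ J}).Finite := by
        apply Set.Finite.subset ((range (n + 1)) ×ˢ (range (n + 1))).finite_toSet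
        intro z hz
        rw [Set.mem_ofPred_eq] at hz
        rw [mem_coe, mem_product, mem_range, mem_range]
        omega
      rw [Set.ncard_eq_toFinset_card _ hfin]
      have h6 : (Icc 1 n).filter (fun m : ℕ => ∀ f ∈ F.image (res n), (f.1 * (m : ℤ) + f.2).toNat.Prime ↔
          f ∈ J.image (res n)) ⊆ insert n ((hfin.toFinset).image Prod.fst) := by
        intro m hm
        rw [mem_filter, mem_Icc] at hm
        rw [mem_insert]
        rcases Nat.lt_or_ge m n with hlt | hge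
        · right
          rw [Finset.mem_image]
          refine ⟨(m, n - m), ?_, rfl⟩
          rw [Set.Finite.mem_toFinset, Set.mem_ofPred_eq]
          refine ⟨hm.1.1, by simp only; omega, by simp only; omega, fun f hf => ?_⟩
          have e1 : ((n - m : ℕ) : ℤ) = (n : ℤ) - m := by omega
          simp only
          rw [e1, val_res, key f hf, ← hm.2 _ (mem_image_of_mem _ hf)]
          constructor
          · rintro ⟨h7, h8⟩
            obtain ⟨q, hq⟩ := Int.eq_ofNat_of_zero_le h7.le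
            rw [hq] at h8 ⊢
            rw [Int.toNat_natCast]
            exact Nat.prime_iff_prime_int.2 h8
          · intro h7
            have h8 := h7.pos
            have h9 : 0 < (res n f).1 * (m : ℤ) + (res n f).2 := by omega
            refine ⟨h9, ?_⟩
            have h10 := Nat.prime_iff_prime_int.1 h7
            rwa [Int.toNat_of_nonneg h9.le] at h10
        · left
          omega
      refine (card_le_card h6).trans ((card_insert_le _ _).trans ?_)
      exact Nat.add_le_add_right card_image_le 1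
    have h6 : (pat (F.image (res n)) (J.image (res n)) n : ℝ) ≤ patL n F J + 1 := by exact_mod_cast h5
    have hn0 : (0 : ℝ) < n := by
      have : (0 : ℝ) < Real.log n ^ (C + 1) := by positivity
      linarith
    have h7 : (n : ℝ) / Real.log n ^ (C + 1) + 1 ≤ n / Real.log n ^ C := by
      have h8 : (1 : ℝ) ≤ n / Real.log n ^ (C + 1) := by
        rw [le_div_iff₀ (by positivity), one_mul]
        exact hp
      have h9 : (n : ℝ) / Real.log n ^ C = Real.log n * (n / Real.log n ^ (C + 1)) := by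
        rw [pow_succ]
        field_simp
      rw [h9]
      nlinarith
    linarith
  have e1 := sum_inj 𝓕 (res n) hinj (k + 1) (CL n) BH (fun _ => True) (fun _ => True) hCL (fun _ _ => Iff.rfl)
  simp only [filter_true] at e1
  have e2 := sum_inj 𝓕 (res n) hinj (k + 1) (CL n) BH (fun F => GoodP C n (F.image (res n))) (GoodP C n) hCL
    (fun _ _ => Iff.rfl)
  rw [e1]
  refine ⟨h3.1, h3.2.trans ?_⟩
  have h4 : ∑ T ∈ ((𝓕.image (res n)).powersetCard (k + 1)).filter (GoodP C n), BH T =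
      ∑ F ∈ (𝓕.powersetCard (k + 1)).filter (fun F => GoodP C n (F.image (res n))), CL n F := by
    convert e2.symm
  rw [h4]
  apply sum_le_sum_of_subset_of_nonneg
  · intro F hFm
    rw [mem_filter] at hFm ⊢
    exact ⟨hFm.1, hgood F (mem_powersetCard.1 hFm.1).1 hFm.2⟩
  · intro F hFm _
    rw [mem_filter, mem_powersetCard] at hFm
    rw [hCL F hFm.1.1]
    exact BH_nonneg _

end Pool.Agent.H37EN
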